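import Pool.Agent.Lib.MP_0e6856_lc.Hard
import Pool.Agent.Lib.MP_0e6856_lc.Member

/-!
For every `k ≥ 3`, recognising corner contact graphs of translates of a regular `k`-gon is
NP-complete.
-/

namespace Pool.Agent.Results.MP_0e6856_lc.CornerContact

open Pool.Agent.Lib.MP_0e6856_lc Pool.Agent.Shared.PolyTime

theorem result (k : ℕ) (hk : 3 ≤ k) (a : ℂ) (ha : a ≠ 0) (strict : Bool) :
    N793a5b8e.IsCompleteFor N68a2faeb.NP
      (langOf (fun x : List ℕ × List (ℕ × ℕ) => PolyCoin k a strict (listGraph x))) :=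
  (npHard_polyCoin hk ha strict).isCompleteFor (polyCoin_mem_NP hk ha strict)

end Pool.Agent.Results.MP_0e6856_lc.CornerContact
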